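import Pool.Agent.N658.TP.Stm2

/-! # Products of block vectors are PEPS -/

set_option autoImplicit false
set_option linter.unusedSectionVars false

open scoped BigOperators ComplexConjugate Classical

noncomputable section

namespace Pool.Agent.N87.TP

open Pool.Agent.Y738.PE Pool.Agent.N658.TP

section coord

variable {b k : ℕ}

/-- the point of `ZMod (b * k)` with tile `i` and position `x` -/
def sd (b k i x : ℕ) : ZMod (b * k) := ((b * i + x : ℕ) : ZMod (b * k))

theorem sd_lt {i x : ℕ} (hi : i < k) (hx : x < b) : b * i + x < b * k := by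
  calc b * i + x < b * i + b := by omega
    _ = b * (i + 1) := by ring
    _ ≤ b * k := Nat.mul_le_mul_left b hi

variable [NeZero (b * k)]

theorem sd_val {i x : ℕ} (hi : i < k) (hx : x < b) : (sd b k i x).val = b * i + x :=
  ZMod.val_cast_of_lt (sd_lt hi hx)

/-- the tile -/
def tl (v : ZMod (b * k)) : ℕ := v.val / b

/-- the position in the tile -/
def ps (v : ZMod (b * k)) : ℕ := v.val % b

theorem tl_lt (v : ZMod (b * k)) : tl v < k := Nat.div_lt_of_lt_mul (ZMod.val_lt v)

theorem ps_lt (hb : 0 < b) (v : ZMod (b * k)) : ps v < b := Nat.mod_lt _ hb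

theorem sd_tp (v : ZMod (b * k)) : sd b k (tl v) (ps v) = v := by
  unfold sd tl ps
  rw [Nat.div_add_mod, ZMod.natCast_zmod_val]

theorem tl_sd {i x : ℕ} (hi : i < k) (hx : x < b) : tl (sd b k i x) = i := by
  unfold tl
  rw [sd_val hi hx, Nat.mul_add_div (by omega), Nat.div_eq_of_lt hx, add_zero]

theorem ps_sd {i x : ℕ} (hi : i < k) (hx : x < b) : ps (sd b k i x) = x := by
  unfold ps
  rw [sd_val hi hx, Nat.mul_add_mod, Nat.mod_eq_of_lt hx]

theorem sd_pred (i x : ℕ) : sd b k i (x + 1) - 1 = sd b k i x := by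
  unfold sd
  push_cast
  ring

/-- a function which is constant along the steps inside of the tiles is constant on the tiles -/
theorem const_tile {X : Type} (hb : 0 < b) (h : Site (b * k) → X)
    (h1 : ∀ v : Site (b * k), ps v.1 ≠ 0 → h (v.1 - 1, v.2) = h v)
    (h2 : ∀ v : Site (b * k), ps v.2 ≠ 0 → h (v.1, v.2 - 1) = h v) (v : Site (b * k)) :
    h v = h (sd b k (tl v.1) 0, sd b k (tl v.2) 0) := by
  have a1 : ∀ i < k, ∀ x < b, ∀ w, h (sd b k i x, w) = h (sd b k i 0, w) := by
    intro i hi x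
    induction x with
    | zero => intro _ w; rfl
    | succ x ih =>
      intro hx w
      have h3 := h1 (sd b k i (x + 1), w) (by rw [ps_sd hi hx]; omega)
      simp only [sd_pred] at h3
      rw [← h3]
      exact ih (by omega) w
  have a2 : ∀ i < k, ∀ x < b, ∀ w, h (w, sd b k i x) = h (w, sd b k i 0) := by
    intro i hi x
    induction x with
    | zero => intro _ w; rfl
    | succ x ih =>
      intro hx w
      have h3 := h2 (w, sd b k i (x + 1)) (by rw [ps_sd hi hx]; omega)
      simp only [sd_pred] at h3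
      rw [← h3]
      exact ih (by omega) w
  have h3 := a1 _ (tl_lt v.1) _ (ps_lt hb v.1) v.2
  have h4 := a2 _ (tl_lt v.2) _ (ps_lt hb v.2) (sd b k (tl v.1) 0)
  rw [sd_tp] at h3 h4
  exact h3.trans h4

end coord

variable {d b k : ℕ} [NeZero (b * k)]

/-- the tile of a site -/
def tS (v : Site (b * k)) : Fin k × Fin k := (⟨tl v.1, tl_lt v.1⟩, ⟨tl v.2, tl_lt v.2⟩)

theorem crn_eq (t : Fin k × Fin k) :
    (crn t : Site (b * k)) = (sd b k t.1 0, sd b k t.2 0) := rfl

theorem box_crn (s : Conf d (b * k)) (t : Fin k × Fin k) (p : Fin b × Fin b) :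
    box b s (crn t) p = s (sd b k t.1 p.1, sd b k t.2 p.2) := by
  unfold box crn sd
  push_cast
  rfl

/-- the condition at a site -/
def Cnd (c : Fin (d ^ (b * b)) → BConf d b) (v : Site (b * k)) (s : Fin d)
    (l r dn up : Fin (d ^ (b * b))) : Prop :=
  up = r ∧ (∀ p : Fin b × Fin b, (p.1 : ℕ) = ps v.1 → (p.2 : ℕ) = ps v.2 → s = c r p) ∧
    (ps v.1 ≠ 0 → l = r) ∧ (ps v.2 ≠ 0 → dn = r)

theorem seed : StmSeed := by
  intro d b k _ hb hk g
  have hcard : Fintype.card (BConf d b) = Fintype.card (Fin (d ^ (b * b))) := by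
    simp [BConf]
  let e : BConf d b ≃ Fin (d ^ (b * b)) := Fintype.equivOfCardEq hcard
  let c : Fin (d ^ (b * b)) → BConf d b := e.symm
  let C : Site (b * k) → Tensor d (d ^ (b * b)) := fun v s l r dn up =>
    if Cnd c v s l r dn up then (if ps v.1 = 0 ∧ ps v.2 = 0 then g (tS v) (c r) else 1) else 0
  refine ⟨C, funext fun s => ?_⟩
  let h0 : Site (b * k) → Fin (d ^ (b * b)) := fun v => e (box b s (crn (tS v)))
  have hc0 : ∀ v, c (h0 v) = box b s (crn (tS v)) := fun v => e.symm_apply_apply _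
  -- uniqueness
  have key : ∀ hor ver : Site (b * k) → Fin (d ^ (b * b)),
      (∏ v : Site (b * k), C v (s v) (hor (v.1 - 1, v.2)) (hor v) (ver (v.1, v.2 - 1)) (ver v)) ≠ 0 →
      hor = h0 ∧ ver = h0 := by
    intro hor ver hne
    have h1 : ∀ v : Site (b * k),
        Cnd c v (s v) (hor (v.1 - 1, v.2)) (hor v) (ver (v.1, v.2 - 1)) (ver v) := by
      intro v
      have h2 := Finset.prod_ne_zero_iff.1 hne v (Finset.mem_univ v)
      by_contra h3
      exact h2 (if_neg h3)
    have hvh : ver = hor := funext fun v => (h1 v).1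
    subst hvh
    have hct := const_tile hb ver (fun v hv => (h1 v).2.2.1 hv) (fun v hv => (h1 v).2.2.2 hv)
    have h4 : ver = h0 := by
      funext v
      apply e.symm.injective
      change c (ver v) = c (h0 v)
      rw [hc0]
      funext p
      rw [box_crn]
      set w : Site (b * k) := (sd b k (tS v).1 p.1, sd b k (tS v).2 p.2) with hw
      have h5 := (h1 w).2.1 p (ps_sd (tS v).1.2 p.1.2).symm (ps_sd (tS v).2.2 p.2.2).symm
      rw [h5]
      have h6 : ver w = ver v := by
        rw [hct v, hct w]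
        simp only [hw]
        rw [tl_sd (tS v).1.2 p.1.2, tl_sd (tS v).2.2 p.2.2]
        rfl
      rw [h6]
    exact ⟨h4, h4⟩
  have hsum : pepsN C s = ∏ v : Site (b * k),
      C v (s v) (h0 (v.1 - 1, v.2)) (h0 v) (h0 (v.1, v.2 - 1)) (h0 v) := by
    unfold pepsN
    rw [Finset.sum_eq_single h0, Finset.sum_eq_single h0]
    · intro ver _ hv
      by_contra h
      exact hv (key _ _ h).2
    · intro h; exact absurd (Finset.mem_univ _) h
    · intro hor _ hh
      refine Finset.sum_eq_zero fun ver _ => ?_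
      by_contra h
      exact hh (key _ _ h).1
    · intro h; exact absurd (Finset.mem_univ _) h
  have hval : ∀ v : Site (b * k),
      C v (s v) (h0 (v.1 - 1, v.2)) (h0 v) (h0 (v.1, v.2 - 1)) (h0 v) =
        if ps v.1 = 0 ∧ ps v.2 = 0 then g (tS v) (box b s (crn (tS v))) else 1 := by
    intro v
    have hpred : ∀ z : ZMod (b * k), ps z ≠ 0 → tl (z - 1) = tl z := by
      intro z hz
      obtain ⟨x, hx⟩ : ∃ x, ps z = x + 1 := ⟨ps z - 1, by omega⟩
      have h1 : z - 1 = sd b k (tl z) x := by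
        conv_lhs => rw [← sd_tp z, hx, sd_pred]
      have h2 : x + 1 < b := hx ▸ ps_lt hb z
      rw [h1, tl_sd (tl_lt z) (by omega)]
    have hcnd : Cnd c v (s v) (h0 (v.1 - 1, v.2)) (h0 v) (h0 (v.1, v.2 - 1)) (h0 v) := by
      refine ⟨rfl, fun p h1 h2 => ?_, fun h => ?_, fun h => ?_⟩
      · rw [hc0, box_crn, h1, h2]
        change s v = s (sd b k (tl v.1) (ps v.1), sd b k (tl v.2) (ps v.2))
        rw [sd_tp, sd_tp]
      · simp only [h0, tS, hpred v.1 h]
      · simp only [h0, tS, hpred v.2 h]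
    change (if Cnd c v (s v) (h0 (v.1 - 1, v.2)) (h0 v) (h0 (v.1, v.2 - 1)) (h0 v) then
      (if ps v.1 = 0 ∧ ps v.2 = 0 then g (tS v) (c (h0 v)) else 1) else 0) = _
    rw [if_pos hcnd, hc0]
  rw [hsum, Finset.prod_congr rfl fun v _ => hval v, ← Finset.prod_filter]
  unfold prodV
  refine Finset.prod_nbij' (fun v => tS v) (fun t => (crn t : Site (b * k))) ?_ ?_ ?_ ?_ ?_
  · intro v _; exact Finset.mem_univ _
  · intro t _
    rw [Finset.mem_filter]
    refine ⟨Finset.mem_univ _, ?_, ?_⟩
    · exact ps_sd t.1.2 hb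
    · exact ps_sd t.2.2 hb
  · intro v hv
    rw [Finset.mem_filter] at hv
    rw [crn_eq]
    refine Prod.ext ?_ ?_
    · change sd b k (tl v.1) 0 = v.1
      conv_rhs => rw [← sd_tp v.1, hv.2.1]
    · change sd b k (tl v.2) 0 = v.2
      conv_rhs => rw [← sd_tp v.2, hv.2.2]
  · intro t _
    refine Prod.ext (Fin.ext ?_) (Fin.ext ?_)
    · exact tl_sd t.1.2 hb
    · exact tl_sd t.2.2 hb
  · intro v _; rfl

end Pool.Agent.N87.TP
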